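import Mathlib
import Pool.Agent.H73.TR.Defs

/-!
Fixed-point-free elements of prime power order.
-/

set_option autoImplicit false

namespace Pool.Agent.H73.RT

open Finset Pool.Agent.H96.Sing Pool.Agent.H73.TR

/-- The theorem of Fein, Kantor and Schacher (J. reine angew. Math. 328 (1981); the proof uses the
classification of the finite simple groups): every transitive permutation group of degree `n > 1`
has an element of prime power order without fixed points. -/
def PrimePowerDerangements : Prop :=
  ∀ (n : ℕ) (H : Subgroup (Equiv.Perm (Fin n))), 1 < n → (∀ x y, ∃ s ∈ H, s x = y) →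
    ∃ s ∈ H, ∃ q j : ℕ, q.Prime ∧ orderOf s = q ^ j ∧ ∀ x, s x ≠ x

theorem pointTransitive_sub (h : PrimePowerDerangements) (X : ℕ) :
    pointTransitiveOrders X ⊆ evenPowOrders X := by
  rintro v ⟨hvX, k, l, B, hk, hkv, hd, H, hH, htr⟩
  obtain ⟨s, hs, q, j, hq, hord, hfix⟩ := h v H (by omega) htr
  have hF : Fact q.Prime := ⟨hq⟩
  have hemp : (univ.filter (fun x : Fin v => s x = x)) = ∅ :=
    filter_eq_empty_iff.mpr fun x _ => hfix x
  refine ⟨hvX, k, l, B, hk, hkv, hd, s, q, j, hH s hs, hq, ?_, ?_, hord, ?_⟩
  · have h1 : s ^ (q ^ j) = 1 := by rw [← hord]; exact pow_orderOf_eq_one s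
    have h2 : (univ.filter (fun x : Fin v => s x = x)).card ≡ v [MOD q] := by
      have h3 : ∀ x : Fin v, s x = x → False := fun x hx => hfix x hx
      have h4 := Equiv.Perm.card_compl_support_modEq h1
      rw [Fintype.card_fin] at h4
      refine Nat.ModEq.trans (congrArg (· % q) ?_) h4
      congr 1
      ext x
      simp
    rw [hemp, card_empty] at h2
    exact (Nat.modEq_zero_iff_dvd).mp h2.symm
  · rcases Nat.eq_zero_or_pos j with h0 | h0
    · exfalso
      rw [h0, pow_zero, orderOf_eq_one_iff] at hord
      exact hfix ⟨0, by omega⟩ (by rw [hord]; rfl)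
    · exact h0
  · rw [hemp, card_empty]
    exact ⟨0, rfl⟩

end Pool.Agent.H73.RT
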