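import Mathlib
import Pool.Agent.H24.KS.SieveC
import Pool.Agent.H24.KS.Win
import Pool.Agent.H24.KS.Df2
import Pool.Agent.H24.KS.Dens

/-!
One-variable sieve for the integers `w ≤ Y` such that `q w` is the number of points of a design of
a given ratio with an automorphism of `q`-power order without fixed points.
-/

set_option autoImplicit false

namespace Pool.Agent.H73.RT

open Finset Classical
open Pool.Agent.H95.Gol
open Pool.Agent.H24.KS

/-- the integers `w ≤ Y` for which `q w` is of the given ratio and satisfies the condition at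
`q` -/
noncomputable def WQ (a c q Y : ℕ) : Finset ℕ :=
  (range (Y+1)).filter (fun w => ∃ x, (a^2+c^2)^2 * x = c^2 * (q * w) + a^2 ∧
    ∀ p : ℕ, p.Prime → p ≠ q → ¬ IsSquare (p : ZMod q) → ¬ p ∣ a → ¬ (p ∣ x ∧ ¬ p^2 ∣ x))

lemma F_prime (E : ℤ) (p : ℕ) (hp : p.Prime) (h2 : p ≠ 2) :
    (F E p = 0 ∧ (p:ℤ) ∣ E) ∨ F E p = 1 ∨ (F E p = -1 ∧ ¬ IsSquare ((E : ℤ) : ZMod p)) := by
  have : Fact p.Prime := ⟨hp⟩
  have hodd : Odd p := hp.odd_of_ne_two h2
  have hF : F E p = ((legendreSym p E : ℤ) : ℝ) := by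
    unfold F
    rw [if_pos hodd, jacobiSym.legendreSym.to_jacobiSym]
  by_cases h0 : ((E : ℤ) : ZMod p) = 0
  · left
    rw [hF, (legendreSym.eq_zero_iff p E).mpr h0]
    exact ⟨by norm_num, (ZMod.intCast_zmod_eq_zero_iff_dvd E p).mp h0⟩
  · right
    rcases legendreSym.eq_one_or_neg_one p h0 with h | h
    · left; rw [hF, h]; norm_num
    · right
      rw [hF, h]
      exact ⟨by norm_num, (legendreSym.eq_neg_one_iff p).mp h⟩

lemma dvd_eq {e : ℤ} (he : e = 1 ∨ e = -1) {p q : ℕ} (hp : p.Prime) (hq : q.Prime)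
    (h : (p:ℤ) ∣ e * q) : p = q := by
  have h1 : (p:ℤ) ∣ (q:ℤ) := by
    rcases he with rfl | rfl
    · rwa [one_mul] at h
    · rw [neg_one_mul] at h
      exact (dvd_neg).mp h
  exact (Nat.prime_dvd_prime_iff_eq hp hq).mp (Int.natCast_dvd_natCast.mp h1)

/-- the sieve for one prime `q` -/
theorem sieve_w : ∃ C : ℝ, 0 < C ∧ ∀ (k1 J a c q Y : ℕ) (e : ℤ), q.Prime →
    (e = 1 ∨ e = -1) → (∀ p : ℕ, p.Prime → ¬ IsSquare ((e : ZMod p) * (q : ZMod p)) →
      p ≠ q ∧ ¬ IsSquare (p : ZMod q)) → 0 < a → 0 < c → a * c * (a^2+c^2) ≤ bb k1 →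
    bb (J+6) ≤ Y → ((WQ a c q Y).card : ℝ) ≤
      C * Y * Real.exp (-(1/2) * SW k1 J + 1/2 * XD (e * q) k1 J) := by
  obtain ⟨C, hC, hs⟩ := sieveD 1
  refine ⟨C * 2 * Real.exp 2, by positivity, ?_⟩
  intro k1 J a c q Y e hq he hrec ha hc hm hY
  set P := (W k1 J).filter (fun p => F (e * q) p = -1) with hPdef
  obtain ⟨E, hE⟩ : ∃ E : ℕ → ℕ → Prop, ∀ p w, E p w ↔
      (p ∣ a^2 + c^2*q * w ∧ ¬ p^2 ∣ a^2 + c^2*q * w) := ⟨_, fun _ _ => Iff.rfl⟩
  have hW2 : ∀ p ∈ W k1 J, 2 < p := fun p hp => by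
    have h1 := lt_of_mem_W hp
    have h2 := two_le_bb k1
    omega
  have hPW : ∀ p ∈ P, p ∈ W k1 J := fun p hp => (mem_filter.mp hp).1
  have hPp : ∀ p ∈ P, p.Prime := fun p hp => prime_of_mem_W (hPW p hp)
  have hns : ∀ p ∈ P, p ≠ q ∧ ¬ IsSquare (p : ZMod q) := by
    intro p hp
    have h1 := hW2 p (hPW p hp)
    have h2 : F (e * q) p = -1 := (mem_filter.mp hp).2
    rcases F_prime (e * q) p (hPp p hp) (by omega) with h | h | h
    · rw [h.1] at h2; norm_num at h2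
    · rw [h] at h2; norm_num at h2
    · apply hrec p (hPp p hp)
      have h3 := h.2
      push_cast at h3
      exact h3
  have hbig : ∀ p ∈ P, a * c * (a^2+c^2) < p := fun p hp => by
    have := lt_of_mem_W (hPW p hp)
    omega
  have hsm : ∀ n, n ∣ a * c * (a^2+c^2) → ∀ p ∈ P, ¬ p ∣ n := by
    intro n hn p hp hpn
    have h1 := Nat.le_of_dvd (by positivity) (hpn.trans hn)
    have h2 := hbig p hp
    omega
  have hpa := hsm a ⟨c * (a^2+c^2), by ring⟩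
  have hpc := hsm c ⟨a * (a^2+c^2), by ring⟩
  have hpb := hsm (a^2+c^2) ⟨a * c, by ring⟩
  have hcop : ∀ p ∈ P, Nat.Coprime (c^2*q) (p^2) := by
    intro p hp
    apply Nat.Coprime.pow_right
    apply Nat.Coprime.mul_left
    · exact (Nat.Coprime.pow_right 2
        ((Nat.Prime.coprime_iff_not_dvd (hPp p hp)).mpr (hpc p hp))).symm
    · exact ((Nat.coprime_primes (hPp p hp) hq).mpr (hns p hp).1).symm
  have hmod : ∀ p j, E p j ↔ E p (j % p^2) := by
    intro p j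
    rw [hE, hE]
    have h4 : a^2 + c^2*q * (j % p^2) ≡ a^2 + c^2*q * j [MOD p^2] :=
      ((Nat.mod_modEq j (p^2)).mul_left _).add_left _
    have h5 : p ∣ a^2 + c^2*q * (j % p^2) ↔ p ∣ a^2 + c^2*q * j :=
      (h4.of_dvd (Dvd.intro_left (p^1) rfl : p ∣ p^2)).dvd_iff dvd_rfl
    have h6 : p^2 ∣ a^2 + c^2*q * (j % p^2) ↔ p^2 ∣ a^2 + c^2*q * j := h4.dvd_iff dvd_rfl
    rw [h5, h6]
  have hcard : ∀ p ∈ P, ((range (p^2)).filter (E p)).card = p - 1 := by
    intro p hp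
    have h3 := card_affine (c^2*q) (a^2) (p^2) (hcop p hp)
      (fun x => p ∣ x ∧ ¬ p^2 ∣ x) (fun x => by
        rw [Nat.dvd_mod_iff (⟨p, by ring⟩ : p ∣ p^2), Nat.dvd_mod_iff (dvd_refl _)])
    have h5 : (range (p^2)).filter (E p) = (range (p^2)).filter (fun j =>
        p ∣ a^2 + c^2*q * j ∧ ¬ p^2 ∣ a^2 + c^2*q * j) := filter_congr fun x _ => hE p x
    have h6 := h3.trans (by convert card_exact p (hPp p hp).pos)
    rw [h5]
    convert h6
  have h1 := hs P J (Y+1) E (fun p => p - 1)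
    (by
      have h2 : (bb J)^33 ≤ (bb J)^(2^6) := Nat.pow_le_pow_right (bb_pos _) (by norm_num)
      have h3 : (bb J)^(2^6) = bb (J + 6) := (bb_add _ _).symm
      show (bb J)^33 ≤ Y + 1
      omega)
    (fun p hp => ⟨hPp p hp, hW2 p (hPW p hp), le_of_mem_W (hPW p hp)⟩)
    (fun p _ j => hmod p j) hcard (fun p _ => by omega)
  have hsub : (WQ a c q Y).card ≤ ((range (Y+1)).filter (fun j => ∀ p ∈ P, ¬ E p j)).card := by
    apply card_le_card
    intro w hw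
    unfold WQ at hw
    rw [mem_filter] at hw ⊢
    obtain ⟨hw1, x, hx, hcond⟩ := hw
    refine ⟨hw1, fun p hp hEp => ?_⟩
    obtain ⟨h4, h5⟩ := hns p hp
    apply hcond p (hPp p hp) h4 h5 (hpa p hp)
    rw [hE] at hEp
    have e1 : a^2 + c^2*q * w = (a^2+c^2)^2 * x := by rw [hx]; ring
    rw [e1] at hEp
    have hcp : Nat.Coprime p ((a^2+c^2)^2) :=
      Nat.Coprime.pow_right 2 ((Nat.Prime.coprime_iff_not_dvd (hPp p hp)).mpr (hpb p hp))
    exact ⟨hcp.dvd_of_dvd_mul_left hEp.1, fun h6 => hEp.2 (Dvd.dvd.mul_left h6 _)⟩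
  have hpt : ∀ p ∈ W k1 J, (1 - F (e * q) p)/2/p ≤
      (if F (e * q) p = -1 then ((p - 1 : ℕ) : ℝ)/(p:ℝ)^2 else 0) + 1/(p:ℝ)^2 +
        (if p = q then 1/(p:ℝ) else 0) := by
    intro p hp
    have hp0 : (0:ℝ) < p := by
      have := hW2 p hp
      exact_mod_cast (by omega : 0 < p)
    have hsq : (0:ℝ) ≤ 1/(p:ℝ)^2 := by positivity
    have hq0 : (0:ℝ) ≤ (if p = q then 1/(p:ℝ) else 0) := by split_ifs <;> positivity
    rcases F_prime (e * q) p (prime_of_mem_W hp) (by have := hW2 p hp; omega) with h | h | h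
    · have h7 := dvd_eq he (prime_of_mem_W hp) hq h.2
      rw [if_pos h7, h.1, if_neg (by norm_num)]
      have : (1 - 0 : ℝ)/2/p ≤ 1/p := by
        apply div_le_div_of_nonneg_right _ hp0.le
        norm_num
      linarith
    · rw [h, if_neg (by norm_num)]
      have : (1 - 1 : ℝ)/2/p = 0 := by norm_num
      rw [this]
      linarith
    · rw [h.1, if_pos rfl]
      have h8 : (1 - -1 : ℝ)/2/p = ((p - 1 : ℕ) : ℝ)/(p:ℝ)^2 + 1/(p:ℝ)^2 := by
        rw [Nat.cast_sub (prime_of_mem_W hp).one_lt.le]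
        field_simp
        push_cast
        ring
      linarith
  have hsum := sum_le_sum hpt
  rw [sum_add_distrib, sum_add_distrib, ← sum_filter, ← sum_filter, ← hPdef] at hsum
  have hlhs : ∑ p ∈ W k1 J, (1 - F (e * q) p)/2/p = (1/2) * SW k1 J - (1/2) * XD (e * q) k1 J := by
    unfold XD SW
    rw [mul_sum, mul_sum, ← sum_sub_distrib]
    refine sum_congr rfl fun p _ => ?_
    ring
  have hsq1 : ∑ p ∈ W k1 J, 1/(p:ℝ)^2 ≤ 1 := sum_inv_sq_le _ (fun p hp => (hW2 p hp).le)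
  have hq1 : ∑ p ∈ (W k1 J).filter (fun p => p = q), 1/(p:ℝ) ≤ 1 := by
    refine (sum_le_sum_of_subset_of_nonneg (t := {q}) ?_ fun _ _ _ => by positivity).trans ?_
    · intro p hp
      rw [mem_filter] at hp
      rw [mem_singleton]; exact hp.2
    · rw [sum_singleton, div_le_one (by exact_mod_cast hq.pos)]
      exact_mod_cast hq.one_lt.le
  rw [hlhs] at hsum
  have hexp : Real.exp (- ∑ p ∈ P, ((p - 1 : ℕ) : ℝ)/(p:ℝ)^2) ≤
      Real.exp 2 * Real.exp (-(1/2) * SW k1 J + 1/2 * XD (e * q) k1 J) := by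
    rw [← Real.exp_add, Real.exp_le_exp]
    linarith
  have hY0 : (0:ℝ) ≤ Y := Nat.cast_nonneg _
  have hY1 : ((Y + 1 : ℕ) : ℝ) ≤ 2 * Y := by
    have h8 : 1 ≤ Y := le_trans (bb_pos _) hY
    have h9 : (1:ℝ) ≤ Y := by exact_mod_cast h8
    push_cast; linarith
  calc ((WQ a c q Y).card : ℝ) ≤ ((range (Y+1)).filter (fun j => ∀ p ∈ P, ¬ E p j)).card := by
        exact_mod_cast hsub
    _ ≤ C * ((Y + 1 : ℕ) : ℝ) * Real.exp (- ∑ p ∈ P, ((p - 1 : ℕ) : ℝ)/(p:ℝ)^2) := by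
        convert h1
    _ ≤ C * (2 * Y) * (Real.exp 2 * Real.exp (-(1/2) * SW k1 J + 1/2 * XD (e * q) k1 J)) := by
        gcongr
    _ = C * 2 * Real.exp 2 * Y * Real.exp (-(1/2) * SW k1 J + 1/2 * XD (e * q) k1 J) := by ring

end Pool.Agent.H73.RT
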