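import Mathlib
import Pool.Agent.H73.RT.Sieve
import Pool.Agent.H24.AN.Uniform
import Pool.Agent.H24.KS.Asum

/-!
Summation over the prime divisors `q` of `v`.
-/

set_option autoImplicit false

namespace Pool.Agent.H73.RT

open Finset Classical
open Pool.Agent.H95.Gol
open Pool.Agent.H24.KS
open Pool.Agent.H24.AN (recip US)
open Pool.Agent.H24.SH (nonsq_mul)

/-- the `v ≤ X` with a small prime divisor `q` which satisfies the condition -/
noncomputable def LoQ (a c J X : ℕ) : Finset ℕ :=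
  (range (X+1)).filter (fun v => ∃ q w, q.Prime ∧ q ≠ 2 ∧ v = q * w ∧ bb (J+6) ≤ X / q ∧
    w ∈ WQ a c q (X/q))

/-- the `v ≤ X` with a large prime divisor `q` -/
noncomputable def HiQ (J X : ℕ) : Finset ℕ :=
  (range (X+1)).filter (fun v => ∃ q w, q.Prime ∧ v = q * w ∧ 0 < w ∧ X / q < bb (J+6))

lemma US_sub (a c J X : ℕ) : US a c X ⊆ LoQ a c J X ∪ HiQ J X := by
  intro v hv
  unfold US at hv
  rw [mem_filter, mem_range] at hv
  obtain ⟨hvX, hv0, q, hq, hq2, ⟨w, rfl⟩, x, hx, hcond⟩ := hv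
  have hw0 : 0 < w := by
    rcases Nat.eq_zero_or_pos w with h0 | h0
    · subst h0; simp at hv0
    · exact h0
  have hwX : w ≤ X / q := by
    rw [Nat.le_div_iff_mul_le hq.pos]
    calc w * q = q * w := Nat.mul_comm _ _
      _ ≤ X := by omega
  rw [mem_union]
  rcases Nat.lt_or_ge (X / q) (bb (J+6)) with h | h
  · right
    unfold HiQ
    rw [mem_filter, mem_range]
    exact ⟨hvX, q, w, hq, rfl, hw0, h⟩
  · left
    unfold LoQ
    rw [mem_filter, mem_range]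
    refine ⟨hvX, q, w, hq, hq2, rfl, h, ?_⟩
    unfold WQ
    rw [mem_filter, mem_range]
    exact ⟨by omega, x, hx, hcond⟩

theorem card_LoQ : ∃ C : ℝ, 0 < C ∧ ∀ (K J X a c : ℕ), 2000 ≤ K → J ≤ K → X < bb (K+7) →
    0 < a → 0 < c → a * c * (a^2+c^2) ≤ bb (kk K) →
    ((LoQ a c J X).card : ℝ) ≤ C * X * (K + 1) * Real.exp (-(1/2) * SW (kk K) J) := by
  obtain ⟨C1, hC1, hsv⟩ := sieve_w
  obtain ⟨C2, μ, hC2, hμ0, hμ, hw⟩ := weightN
  obtain ⟨C3, hC3, hup⟩ := SW_upper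
  have hl2 : 0 < Real.log 2 := Real.log_pos (by norm_num)
  refine ⟨C1 * (2 * (C2 * (1 + 8 + C3))), by positivity, ?_⟩
  intro K J X a c hK hJK hX ha hc hm
  set S := (range (X+1)).filter (fun q => q.Prime ∧ q ≠ 2 ∧ bb (J+6) ≤ X / q) with hS
  have hSq : ∀ q ∈ S, q.Prime ∧ q ≠ 2 ∧ q ≤ X ∧ bb (J+6) ≤ X / q := by
    intro q hq
    rw [hS, mem_filter, mem_range] at hq
    exact ⟨hq.2.1, hq.2.2.1, by omega, hq.2.2.2⟩
  have hsub : LoQ a c J X ⊆ S.biUnion (fun q => (WQ a c q (X/q)).image (fun w => q * w)) := by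
    intro v hv
    unfold LoQ at hv
    rw [mem_filter, mem_range] at hv
    obtain ⟨hvX, q, w, hq, hq2, rfl, hXq, hw⟩ := hv
    rw [mem_biUnion]
    refine ⟨q, ?_, mem_image.mpr ⟨w, hw, rfl⟩⟩
    rw [hS, mem_filter, mem_range]
    refine ⟨?_, hq, hq2, hXq⟩
    have h1 : 1 ≤ X / q := (bb_pos _).trans_le hXq
    have h2 := (Nat.le_div_iff_mul_le hq.pos).mp h1
    omega
  have hcard : ((LoQ a c J X).card : ℝ) ≤ ∑ q ∈ S, ((WQ a c q (X/q)).card : ℝ) := by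
    have h1 : (LoQ a c J X).card ≤ ∑ q ∈ S, (WQ a c q (X/q)).card :=
      (card_le_card hsub).trans (card_biUnion_le.trans (sum_le_sum fun q _ => card_image_le))
    exact_mod_cast h1
  set T : ℝ := Real.exp (-(1/2) * SW (kk K) J) with hT
  have hT0 : 0 < T := Real.exp_pos _
  have hkk := kk_pow K
  have hX0 : (0:ℝ) ≤ X := Nat.cast_nonneg _
  have hone : ∀ q ∈ S, ((WQ a c q (X/q)).card : ℝ) ≤
      C1 * X * T * (Real.exp (μ 1 (kk K) (K+7) q) / q + Real.exp (μ (-1) (kk K) (K+7) q) / q) := by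
    intro q hq
    obtain ⟨hqp, hq2, hqX, hXq⟩ := hSq q hq
    obtain ⟨e, he, hrec⟩ := recip q hqp hq2
    have hq0 : (0:ℝ) < q := by exact_mod_cast hqp.pos
    have h1 := hsv (kk K) J a c q (X/q) e hqp he hrec ha hc hm hXq
    have hns : ¬ IsSquare (e * (q:ℤ)) := by
      apply nonsq_mul e (by rcases he with h | h <;> rw [h] <;> norm_num) q hqp
      have : e.natAbs = 1 := by rcases he with h | h <;> rw [h] <;> rfl
      rw [this]; exact hqp.one_lt
    have h2 := hμ e (kk K) (K+7) q he (kk_ge K) hqp.pos hns J (by omega)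
    have h3 := hμ0 e (kk K) (K+7) q
    have h4 : Real.exp (-(1/2) * SW (kk K) J + 1/2 * XD (e * q) (kk K) J) ≤
        T * Real.exp (μ e (kk K) (K+7) q) := by
      rw [hT, ← Real.exp_add, Real.exp_le_exp]
      linarith
    have h5 : ((X / q : ℕ) : ℝ) ≤ (X:ℝ) / q := Nat.cast_div_le
    have h6 : Real.exp (μ e (kk K) (K+7) q) / q ≤
        Real.exp (μ 1 (kk K) (K+7) q) / q + Real.exp (μ (-1) (kk K) (K+7) q) / q := by
      have e1 : 0 ≤ Real.exp (μ 1 (kk K) (K+7) q) / q := by positivity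
      have e2 : 0 ≤ Real.exp (μ (-1) (kk K) (K+7) q) / q := by positivity
      rcases he with rfl | rfl <;> linarith
    calc ((WQ a c q (X/q)).card : ℝ) ≤ C1 * ((X / q : ℕ) : ℝ) *
          Real.exp (-(1/2) * SW (kk K) J + 1/2 * XD (e * q) (kk K) J) := h1
      _ ≤ C1 * ((X:ℝ) / q) * (T * Real.exp (μ e (kk K) (K+7) q)) := by gcongr
      _ = C1 * X * T * (Real.exp (μ e (kk K) (K+7) q) / q) := by ring
      _ ≤ _ := mul_le_mul_of_nonneg_left h6 (by positivity)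
  have hSb : ∀ D ∈ S, 0 < D ∧ D ≤ bb (K+7+3) := by
    intro q hq
    obtain ⟨hqp, hq2, hqX, hXq⟩ := hSq q hq
    have : bb (K+7) ≤ bb (K+7+3) := bb_mono (by omega)
    exact ⟨hqp.pos, by omega⟩
  have hinv : ∑ q ∈ S, (1:ℝ)/q ≤ (8 + C3) * (K + 1) := by
    have h1 : S ⊆ W 0 (K+7) := by
      intro q hq
      obtain ⟨hqp, hq2, hqX, hXq⟩ := hSq q hq
      rw [mem_W (by omega)]
      have h2 := hqp.two_le
      have h3 : bb 0 = 2 := rfl
      exact ⟨hqp, by omega, by omega⟩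
    have h2 : ∑ q ∈ S, (1:ℝ)/q ≤ SW 0 (K+7) :=
      sum_le_sum_of_subset_of_nonneg h1 fun _ _ _ => by positivity
    have h3 := hup 0 (K+7) (by omega)
    have h4 := Real.log_two_lt_d9
    push_cast at h3
    have h5 : (0:ℝ) ≤ K := Nat.cast_nonneg _
    have h6 : ((K:ℝ) + 7 - 0) * Real.log 2 ≤ (K:ℝ) + 7 := by nlinarith
    nlinarith
  have hw1 := hw 1 (kk K) (K+7) S (Or.inl rfl) (by omega) hSb
  have hw2 := hw (-1) (kk K) (K+7) S (Or.inr rfl) (by omega) hSb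
  have h7 : 1 + ∑ q ∈ S, (1:ℝ)/q ≤ (1 + 8 + C3) * (K + 1) := by
    have h5 : (0:ℝ) ≤ K := Nat.cast_nonneg _
    nlinarith
  calc ((LoQ a c J X).card : ℝ) ≤ ∑ q ∈ S, ((WQ a c q (X/q)).card : ℝ) := hcard
    _ ≤ ∑ q ∈ S, C1 * X * T * (Real.exp (μ 1 (kk K) (K+7) q) / q +
          Real.exp (μ (-1) (kk K) (K+7) q) / q) := sum_le_sum hone
    _ = C1 * X * T * (∑ q ∈ S, Real.exp (μ 1 (kk K) (K+7) q) / q +
          ∑ q ∈ S, Real.exp (μ (-1) (kk K) (K+7) q) / q) := by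
        rw [← mul_sum, sum_add_distrib]
    _ ≤ C1 * X * T * (C2 * (1 + ∑ q ∈ S, (1:ℝ)/q) + C2 * (1 + ∑ q ∈ S, (1:ℝ)/q)) :=
        mul_le_mul_of_nonneg_left (add_le_add hw1 hw2) (by positivity)
    _ ≤ C1 * X * T * (C2 * ((1 + 8 + C3) * (K + 1)) + C2 * ((1 + 8 + C3) * (K + 1))) := by
        gcongr
    _ = C1 * (2 * (C2 * (1 + 8 + C3))) * X * (K + 1) * T := by ring

theorem card_HiQ : ∃ C : ℝ, 0 < C ∧ ∀ (K J X : ℕ), 2000 ≤ K → J + 6 ≤ K → bb (K+6) ≤ X →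
    ((HiQ J X).card : ℝ) ≤ C * X * Real.exp (-((K:ℝ) - J) * Real.log 2) := by
  obtain ⟨C, hC, hs⟩ := sieveD 1
  obtain ⟨C1, hC1, hSW⟩ := SW_lower
  refine ⟨C * 2 * Real.exp (C1 + 16 * Real.log 2), by positivity, ?_⟩
  intro K J X hK hJK hX
  have hJ : (bb (K-10))^33 ≤ X + 1 := by
    have h1 : (bb (K-10))^33 ≤ (bb (K-10))^(2^6) :=
      Nat.pow_le_pow_right (bb_pos _) (by norm_num)
    have h2 : (bb (K-10))^(2^6) = bb (K - 10 + 6) := (bb_add _ _).symm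
    have h3 : bb (K - 10 + 6) ≤ bb (K+6) := bb_mono (by omega)
    omega
  obtain ⟨E, hE⟩ : ∃ E : ℕ → ℕ → Prop, ∀ p j, E p j ↔ p ∣ j := ⟨fun p j => p ∣ j, fun _ _ => Iff.rfl⟩
  have h1 := hs (W (J+6) (K-10)) (K-10) (X+1) E (fun p => p) hJ
    (fun p hp => ⟨prime_of_mem_W hp, by
      have := lt_of_mem_W hp
      have := two_le_bb (J+6)
      omega, le_of_mem_W hp⟩)
    (fun p _ j => by rw [hE, hE, Nat.dvd_mod_iff (⟨p, by ring⟩ : p ∣ p^2)])
    (fun p hp => by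
      have h2 := card_mod_eq p 0 (prime_of_mem_W hp).pos
      have h3 : (range (p^2)).filter (E p) = (range (p^2)).filter (fun x => x % p = 0) :=
        filter_congr fun x _ => (hE p x).trans Nat.dvd_iff_mod_eq_zero
      rw [h3]; exact h2)
    (fun p _ => by omega)
  have hcard : ((HiQ J X).card : ℝ) ≤ C * ((X+1 : ℕ) : ℝ) *
        Real.exp (- ∑ p ∈ W (J+6) (K-10), ((p:ℕ):ℝ) / (p:ℝ)^2) := by
    refine le_trans ?_ h1
    refine Nat.cast_le.mpr ?_
    apply card_le_card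
    intro v hv
    unfold HiQ at hv
    rw [mem_filter, mem_range] at hv
    rw [mem_filter, mem_range]
    obtain ⟨hvX, q, w, hq, rfl, hw0, hXq⟩ := hv
    refine ⟨hvX, fun p hp => ?_⟩
    rw [hE]
    intro hpd
    have hpp := prime_of_mem_W hp
    have h2 := lt_of_mem_W hp
    have h3 := le_of_mem_W hp
    have hwX : w ≤ X / q := by
      rw [Nat.le_div_iff_mul_le hq.pos]
      calc w * q = q * w := Nat.mul_comm _ _
        _ ≤ X := by omega
    rcases (hpp.dvd_mul).mp hpd with h | h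
    · have h4 : p = q := (Nat.prime_dvd_prime_iff_eq hpp hq).mp h
      subst h4
      have h5 : X < bb (J+6) * p := (Nat.div_lt_iff_lt_mul hpp.pos).mp hXq
      have h6 : bb (J+6) ≤ bb K := bb_mono hJK
      have h7 : bb (K-10) ≤ bb K := bb_mono (by omega)
      have h8 : bb (J+6) * p ≤ bb K * bb K := Nat.mul_le_mul h6 (h3.trans h7)
      have h9 : bb K * bb K = bb (K+1) := by rw [bb_succ, sq]
      have h10 : bb (K+1) ≤ bb (K+6) := bb_mono (by omega)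
      omega
    · have := Nat.le_of_dvd hw0 h
      omega
  have hexp : Real.exp (- ∑ p ∈ W (J+6) (K-10), ((p:ℕ):ℝ) / (p:ℝ)^2) ≤
      Real.exp (C1 + 16 * Real.log 2) * Real.exp (-((K:ℝ) - J) * Real.log 2) := by
    have h4 : ∑ p ∈ W (J+6) (K-10), ((p:ℕ):ℝ) / (p:ℝ)^2 = SW (J+6) (K-10) := by
      unfold SW
      refine sum_congr rfl fun p hp => ?_
      have : (p:ℝ) ≠ 0 := by exact_mod_cast (prime_of_mem_W hp).ne_zero
      field_simp
    rw [h4]
    have h5 := hSW (J+6) (K-10)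
    have h6 : (((K - 10 : ℕ)) : ℝ) = K - 10 := by
      rw [Nat.cast_sub (by omega)]; norm_num
    rw [h6] at h5
    push_cast at h5
    rw [← Real.exp_add]
    apply Real.exp_le_exp.mpr
    linarith
  have hX0 : (0:ℝ) ≤ X := Nat.cast_nonneg _
  have hX1 : ((X + 1 : ℕ) : ℝ) ≤ 2 * X := by
    have h8 : 1 ≤ X := le_trans (bb_pos _) hX
    have h9 : (1:ℝ) ≤ X := by exact_mod_cast h8
    push_cast; linarith
  calc _ ≤ C * ((X+1 : ℕ) : ℝ) * Real.exp (- ∑ p ∈ W (J+6) (K-10), ((p:ℕ):ℝ) / (p:ℝ)^2) := hcard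
    _ ≤ C * (2 * X) * (Real.exp (C1 + 16 * Real.log 2) *
          Real.exp (-((K:ℝ) - J) * Real.log 2)) := by gcongr
    _ = C * 2 * Real.exp (C1 + 16 * Real.log 2) * X * Real.exp (-((K:ℝ) - J) * Real.log 2) := by
        ring

/-- one ratio -/
theorem card_US : ∃ C : ℝ, 0 < C ∧ ∀ (K X a c : ℕ), 2000 ≤ K → bb (K+6) ≤ X → X < bb (K+7) →
    0 < a → 0 < c → a * c * (a^2+c^2) ≤ bb (kk K) →
    ((US a c X).card : ℝ) ≤ C * X * Real.exp (-(1/5) * K * Real.log 2) := by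
  obtain ⟨C1, hC1, hlo⟩ := card_LoQ
  obtain ⟨C2, hC2, hhi⟩ := card_HiQ
  obtain ⟨C3, hC3, hSW⟩ := SW_lower
  obtain ⟨C4, hC4, habs⟩ := absorb (1/2) 1 (1/20) (by norm_num)
  have hl2 : 0 < Real.log 2 := Real.log_pos (by norm_num)
  refine ⟨C1 * Real.exp (C3/2 + Real.log 2) * C4 + C2, by positivity, ?_⟩
  intro K X a c hK hX1 hX2 ha hc hm
  have h1 : (US a c X).card ≤ (LoQ a c (K/2) X).card + (HiQ (K/2) X).card :=
    (card_le_card (US_sub a c (K/2) X)).trans (card_union_le _ _)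
  have h1' : ((US a c X).card : ℝ) ≤ (LoQ a c (K/2) X).card + (HiQ (K/2) X).card := by
    exact_mod_cast h1
  have h2 := hlo K (K/2) X a c hK (by omega) hX2 ha hc hm
  have h3 := hhi K (K/2) X hK (by omega) hX1
  have hJ1 : ((K/2 : ℕ) : ℝ) ≤ K/2 := Nat.cast_div_le
  have hJ2 : (K:ℝ)/2 - 1/2 ≤ ((K/2 : ℕ) : ℝ) := by
    have h4 : K ≤ 2 * (K/2) + 1 := by omega
    have h5 : (K:ℝ) ≤ 2 * ((K/2 : ℕ) : ℝ) + 1 := by exact_mod_cast h4
    linarith
  have hX0 : (0:ℝ) ≤ X := Nat.cast_nonneg _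
  have hK0 : (0:ℝ) ≤ K := Nat.cast_nonneg _
  have h5 : Real.exp (-(1/2) * SW (kk K) (K/2)) * (K + 1) ≤
      Real.exp (C3/2 + Real.log 2) * C4 * Real.exp (-(1/5) * K * Real.log 2) := by
    have h6 := hSW (kk K) (K/2)
    have h7 : Real.exp (-(1/2) * SW (kk K) (K/2)) ≤ Real.exp (C3/2 + Real.log 2) *
        (Real.exp ((1/2 * kk K - 1/20 * K) * Real.log 2) *
          Real.exp (-(1/5) * K * Real.log 2)) := by
      rw [← Real.exp_add, ← Real.exp_add, Real.exp_le_exp]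
      nlinarith
    have h8 := habs K
    rw [pow_one] at h8
    calc Real.exp (-(1/2) * SW (kk K) (K/2)) * (K + 1) ≤ (Real.exp (C3/2 + Real.log 2) *
        (Real.exp ((1/2 * kk K - 1/20 * K) * Real.log 2) *
          Real.exp (-(1/5) * K * Real.log 2))) * (K + 1) :=
          mul_le_mul_of_nonneg_right h7 (by positivity)
      _ = Real.exp (C3/2 + Real.log 2) * (Real.exp ((1/2 * kk K - 1/20 * K) * Real.log 2) *
          (K + 1)) * Real.exp (-(1/5) * K * Real.log 2) := by ring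
      _ ≤ Real.exp (C3/2 + Real.log 2) * C4 * Real.exp (-(1/5) * K * Real.log 2) := by gcongr
  have h6 : Real.exp (-((K:ℝ) - (K/2 : ℕ)) * Real.log 2) ≤
      Real.exp (-(1/5) * K * Real.log 2) := by
    rw [Real.exp_le_exp]
    nlinarith
  calc ((US a c X).card : ℝ) ≤ C1 * X * (K + 1) * Real.exp (-(1/2) * SW (kk K) (K/2)) +
        C2 * X * Real.exp (-((K:ℝ) - (K/2 : ℕ)) * Real.log 2) := h1'.trans (add_le_add h2 h3)
    _ = C1 * X * (Real.exp (-(1/2) * SW (kk K) (K/2)) * (K + 1)) +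
        C2 * X * Real.exp (-((K:ℝ) - (K/2 : ℕ)) * Real.log 2) := by ring
    _ ≤ C1 * X * (Real.exp (C3/2 + Real.log 2) * C4 * Real.exp (-(1/5) * K * Real.log 2)) +
        C2 * X * Real.exp (-(1/5) * K * Real.log 2) := by gcongr
    _ = _ := by ring

end Pool.Agent.H73.RT
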