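import Mathlib
import Pool.Agent.H73.RT.Low
import Pool.Agent.H73.TR.DensP
import Pool.Agent.H24.QD.CardB
import Pool.Agent.H24.QD.Final

/-!
The number of `v ≤ X` for which some nontrivial symmetric design on `v` points has an automorphism
of prime power order `q^j`, `q ∣ v`, with an even number of fixed points: at most
`C X / (log X)^de`, `de = 0.086...`.
-/

set_option autoImplicit false

namespace Pool.Agent.H73.RT

open Finset Classical Pool.Agent.H96.Sing
open Pool.Agent.H95.Gol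
open Pool.Agent.H12 (design_lt)
open Pool.Agent.H70.SymDes (Exc SquareRatio exceptionalOrders)
open Pool.Agent.H24.AN (US ratio_one ratio_two)
open Pool.Agent.H24.KS (kk kk_pow)
open Pool.Agent.H24.QD
open Pool.Agent.H73.TR

/-- the covering with the pairs `s, t ≤ r` -/
lemma evenPow_cover (r X : ℕ) :
    evenPowOrders X ⊆ ↑((range (X+1)).filter (Exc (r^2)) ∪
      ((Icc 1 r) ×ˢ (Icc 1 r)).biUnion (fun x => US x.1 x.2 X) : Finset ℕ) := by
  rintro v ⟨hvX, k, l, B, hk, hkv, hd, s', q, j, hs', hsp, hsv, -, hord, hev⟩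
  rw [mem_coe, mem_union]
  by_cases hexc : Exc (r^2) v
  · left
    rw [mem_filter, mem_range]
    exact ⟨by omega, hexc⟩
  right
  have h1 : v % 4 = 3 ∧ SquareRatio (r^2) v k := by
    by_contra hcon
    exact hexc ⟨k, l, hk, hkv, toH12 hd, hcon⟩
  obtain ⟨hv4, s, t, hs, ht, hst, hA, hrat⟩ := h1
  obtain ⟨hlk, hlv⟩ := design_lt (by omega) (toH12 hd)
  have hvodd : Odd v := Nat.odd_iff.mpr (by omega)
  have hq2 : q ≠ 2 := by
    intro h
    rw [h] at hsv
    omega
  have hno : ∀ p : ℕ, p.Prime → p ≠ q → ¬ IsSquare (p : ZMod q) → ¬ (p ∣ k - l ∧ ¬ p^2 ∣ k - l) :=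
    fun p hp hpq hns => no_exact_pow hd hlk hvodd s' hs' q hsp hq2 j
      (by rw [← hord]; exact pow_orderOf_eq_one s') hev p hp hns hpq
  have key : ∀ a c x : ℕ, 0 < a → k - l = a^2 * x → ∀ p : ℕ, p.Prime → p ≠ q →
      ¬ IsSquare (p : ZMod q) → ¬ p ∣ a → ¬ (p ∣ x ∧ ¬ p^2 ∣ x) := by
    rintro a c x ha hax p hp hpq hns hpa ⟨h1, h2⟩
    apply hno p hp hpq hns
    rw [hax]
    refine ⟨Dvd.dvd.mul_left h1 _, fun h3 => h2 ?_⟩
    have hcop : Nat.Coprime (p^2) (a^2) :=
      Nat.Coprime.pow 2 2 ((Nat.Prime.coprime_iff_not_dvd hp).mpr hpa)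
    exact hcop.dvd_of_dvd_mul_left h3
  rw [mem_biUnion]
  have hsA : s ≤ r := by
    by_contra hcon
    push Not at hcon
    have := Nat.pow_lt_pow_left hcon two_ne_zero
    linarith [sq_nonneg t]
  have htA : t ≤ r := by
    by_contra hcon
    push Not at hcon
    have := Nat.pow_lt_pow_left hcon two_ne_zero
    linarith [sq_nonneg s]
  rcases hrat with hr | hr
  · obtain ⟨x, hx1, hx2⟩ := ratio_two hs hst hk (by omega) hlk hlv hr
    refine ⟨(t, s), ?_, ?_⟩
    · rw [mem_product, mem_Icc, mem_Icc]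
      exact ⟨⟨ht, htA⟩, ⟨hs, hsA⟩⟩
    · unfold US
      rw [mem_filter, mem_range]
      exact ⟨by omega, by omega, q, hsp, hq2, hsv, x, hx2, key t s x ht hx1⟩
  · obtain ⟨x, hx1, hx2⟩ := ratio_one hs hst hk (by omega) hlk hlv hr
    refine ⟨(s, t), ?_, ?_⟩
    · rw [mem_product, mem_Icc, mem_Icc]
      exact ⟨⟨hs, hsA⟩, ⟨ht, htA⟩⟩
    · unfold US
      rw [mem_filter, mem_range]
      exact ⟨by omega, by omega, q, hsp, hq2, hsv, x, hx2, key s t x hs hx1⟩

lemma dl_le : dl ≤ (1/10) * Real.log 2 := by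
  have h2 : (0.6931471803 : ℝ) < Real.log 2 := Real.log_two_gt_d9
  have h3 : Real.log 2 < (0.6931471808 : ℝ) := Real.log_two_lt_d9
  set L := Real.log 2 with hL
  have h4 : 9/10 * L - 1 ≤ Real.log L := by
    rw [Real.le_log_iff_exp_le (by linarith)]
    set x := 1 - 9/10 * L with hx
    have hx0 : (0.376 : ℝ) ≤ x := by rw [hx]; linarith
    have h5 := Real.quadratic_le_exp_of_nonneg (show 0 ≤ x by linarith)
    have h6 : Real.exp (9/10 * L - 1) = (Real.exp x)⁻¹ := by
      rw [← Real.exp_neg]; congr 1; rw [hx]; ring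
    rw [h6, inv_le_comm₀ (Real.exp_pos _) (by linarith)]
    refine le_trans ?_ h5
    rw [inv_le_iff_one_le_mul₀ (by linarith)]
    nlinarith
  unfold dl
  linarith

lemma de_gt : (0.086:ℝ) < 1 - (1 + Real.log (Real.log 2)) / Real.log 2 := by
  have h2 : (0.6931471803 : ℝ) < Real.log 2 := Real.log_two_gt_d9
  have h3 : Real.log 2 < (0.6931471808 : ℝ) := Real.log_two_lt_d9
  set L := Real.log 2 with hL
  have h4 : Real.log L < -0.3664635 := by
    rw [Real.log_lt_iff_lt_exp (by linarith)]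
    have h5 := Real.exp_bound' (x := 0.3664635) (by norm_num) (by norm_num) (n := 6) (by norm_num)
    have h6 : Real.exp 0.3664635 ≤ 1.4426256 := by
      refine h5.trans ?_
      simp only [Finset.sum_range_succ, Finset.sum_range_zero, Nat.factorial]
      norm_num
    rw [Real.exp_neg, lt_inv_comm₀ (by linarith) (Real.exp_pos _)]
    refine lt_of_le_of_lt h6 ?_
    rw [lt_inv_comm₀ (by norm_num) (by linarith)]
    refine lt_of_lt_of_le h3 ?_
    norm_num
  have h7 : (1 + Real.log L) / L < 0.914 := by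
    rw [div_lt_iff₀ (by linarith)]
    linarith
  linarith

lemma exc_card (A X : ℕ) :
    (((range (X+1)).filter (Exc A)).card : ℝ) = ((exceptionalOrders A X).ncard : ℝ) := by
  rw [← Set.ncard_coe_finset]
  congr 2
  ext v
  rw [mem_coe, mem_filter, mem_range]
  unfold exceptionalOrders Exc
  rw [Set.mem_setOf_eq]
  constructor
  · rintro ⟨h1, h2⟩; exact ⟨by omega, h2⟩
  · rintro ⟨h1, h2⟩; exact ⟨by omega, h2⟩

theorem evenPow_window : ∃ C : ℝ, 0 < C ∧ ∀ K X : ℕ, 2000 ≤ K → bb (K+6) ≤ X → X < bb (K+7) →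
    ((evenPowOrders X).ncard : ℝ) ≤ C * X * Real.exp (-dl * K) := by
  obtain ⟨C1, hC1, hB⟩ := cardB
  obtain ⟨C2, hC2, hU⟩ := card_US
  have hl2 : 0 < Real.log 2 := Real.log_pos (by norm_num)
  have hdl := dl_le
  refine ⟨C1 * 4 + C1 + C2, by positivity, ?_⟩
  intro K X hK hX1 hX2
  have hX0 : (0:ℝ) ≤ X := Nat.cast_nonneg _
  have hK0 : (0:ℝ) ≤ K := Nat.cast_nonneg _
  obtain ⟨r, hr⟩ : ∃ r : ℕ, r = 2^(K/20) := ⟨_, rfl⟩
  have hr0 : 0 < r := by rw [hr]; positivity
  have hrr : (r:ℝ) = Real.exp (((K/20 : ℕ) : ℝ) * Real.log 2) := by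
    rw [Real.exp_nat_mul, Real.exp_log (by norm_num), hr]; push_cast; rfl
  have hrr2 : (r:ℝ)^2 = Real.exp ((2 * ((K/20 : ℕ) : ℝ)) * Real.log 2) := by
    rw [hrr, ← Real.exp_nat_mul]; congr 1; push_cast; ring
  have hq1 : ((K/20 : ℕ) : ℝ) ≤ K/20 := Nat.cast_div_le
  have hq2 : (K:ℝ)/20 - 1 ≤ ((K/20 : ℕ) : ℝ) := by
    have h4 : K ≤ 20 * (K/20) + 20 := by omega
    have h5 : (K:ℝ) ≤ 20 * ((K/20 : ℕ) : ℝ) + 20 := by exact_mod_cast h4
    linarith
  set D := Real.exp (-dl * K) with hD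
  have hD0 : 0 < D := Real.exp_pos _
  have h1 : (evenPowOrders X).ncard ≤ ((range (X+1)).filter (Exc (r^2)) ∪
      ((Icc 1 r) ×ˢ (Icc 1 r)).biUnion (fun x => US x.1 x.2 X) : Finset ℕ).card := by
    rw [← Set.ncard_coe_finset]
    exact Set.ncard_le_ncard (evenPow_cover r X) (Finset.finite_toSet _)
  have h2 := card_union_le ((range (X+1)).filter (Exc (r^2)))
    (((Icc 1 r) ×ˢ (Icc 1 r)).biUnion (fun x => US x.1 x.2 X))
  have h3 : ((evenPowOrders X).ncard : ℝ) ≤ ((range (X+1)).filter (Exc (r^2))).card +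
      (((Icc 1 r) ×ˢ (Icc 1 r)).biUnion (fun x => US x.1 x.2 X)).card := by
    exact_mod_cast h1.trans h2
  have h4 : (((range (X+1)).filter (Exc (r^2))).card : ℝ) ≤ (C1 * 4 + C1) * X * D := by
    rw [exc_card]
    have h5 := hB K X (r^2) hK hX1 hX2 (Nat.one_le_pow _ _ hr0)
    have h6 : C1 * X / ((r^2 : ℕ) : ℝ) ≤ C1 * 4 * X * D := by
      push_cast
      rw [div_le_iff₀ (by positivity), hrr2, mul_assoc (C1 * 4 * X), hD, ← Real.exp_add]
      have h7 : (1:ℝ) ≤ 4 * Real.exp (-dl * K + (2 * ((K/20 : ℕ) : ℝ)) * Real.log 2) := by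
        have h8 : (4:ℝ) = Real.exp (2 * Real.log 2) := by
          have := Real.exp_nat_mul (Real.log 2) 2
          rw [Real.exp_log (by norm_num)] at this
          push_cast at this
          rw [this]; norm_num
        rw [h8, ← Real.exp_add]
        apply Real.one_le_exp
        nlinarith
      calc C1 * X = C1 * X * 1 := (mul_one _).symm
        _ ≤ C1 * X * (4 * Real.exp (-dl * K + (2 * ((K/20 : ℕ) : ℝ)) * Real.log 2)) :=
            mul_le_mul_of_nonneg_left h7 (by positivity)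
        _ = _ := by ring
    calc _ ≤ _ := h5
      _ ≤ C1 * 4 * X * D + C1 * X * D := by linarith
      _ = _ := by ring
  have h5 : ((((Icc 1 r) ×ˢ (Icc 1 r)).biUnion (fun x => US x.1 x.2 X)).card : ℝ) ≤
      C2 * X * D := by
    have h6 : ((((Icc 1 r) ×ˢ (Icc 1 r)).biUnion (fun x => US x.1 x.2 X)).card : ℝ) ≤
        ∑ x ∈ (Icc 1 r) ×ˢ (Icc 1 r), ((US x.1 x.2 X).card : ℝ) := by
      exact_mod_cast card_biUnion_le
    have h7 : ∀ x ∈ (Icc 1 r) ×ˢ (Icc 1 r), ((US x.1 x.2 X).card : ℝ) ≤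
        C2 * X * Real.exp (-(1/5) * K * Real.log 2) := by
      intro x hx
      rw [mem_product, mem_Icc, mem_Icc] at hx
      obtain ⟨⟨ha1, ha2⟩, ⟨hc1, hc2⟩⟩ := hx
      apply hU K X x.1 x.2 hK hX1 hX2 (by omega) (by omega)
      have e1 : x.1 * x.2 * (x.1^2 + x.2^2) ≤ r * r * (r^2 + r^2) :=
        Nat.mul_le_mul (Nat.mul_le_mul ha2 hc2)
          (Nat.add_le_add (Nat.pow_le_pow_left ha2 2) (Nat.pow_le_pow_left hc2 2))
      have e2 : r * r * (r^2 + r^2) = 2^(4 * (K/20) + 1) := by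
        rw [hr]; ring
      have e3 : 2^(4 * (K/20) + 1) ≤ bb (kk K) := by
        unfold bb
        apply Nat.pow_le_pow_right (by norm_num)
        have := kk_pow K
        omega
      omega
    have h8 := h6.trans (sum_le_sum h7)
    rw [sum_const, card_product, Nat.card_Icc, nsmul_eq_mul] at h8
    have e1 : (((r + 1 - 1) * (r + 1 - 1) : ℕ) : ℝ) = (r:ℝ)^2 := by
      rw [Nat.add_sub_cancel]; push_cast; ring
    rw [e1, hrr2] at h8
    refine h8.trans ?_
    have e2 : Real.exp ((2 * ((K/20 : ℕ) : ℝ)) * Real.log 2) *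
        (C2 * X * Real.exp (-(1/5) * K * Real.log 2)) = C2 * X *
        Real.exp ((2 * ((K/20 : ℕ) : ℝ)) * Real.log 2 + -(1/5) * K * Real.log 2) := by
      rw [Real.exp_add]; ring
    rw [e2]
    apply mul_le_mul_of_nonneg_left _ (by positivity)
    rw [hD, Real.exp_le_exp]
    nlinarith
  calc _ ≤ _ := h3
    _ ≤ (C1 * 4 + C1) * X * D + C2 * X * D := add_le_add h4 h5
    _ = _ := by ring

/-- from windows to all `X` -/
theorem rate_of (f : ℕ → ℝ) (hf : ∀ X : ℕ, f X ≤ X + 1)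
    (h : ∃ C : ℝ, 0 < C ∧ ∀ K X : ℕ, 2000 ≤ K → bb (K+6) ≤ X → X < bb (K+7) →
      f X ≤ C * X * Real.exp (-dl * K)) :
    ∃ C : ℝ, 0 < C ∧ ∀ X : ℕ, 2 ≤ X → f X ≤ C * X / Real.log X ^ de := by
  obtain ⟨C, hC, h⟩ := h
  obtain ⟨N0, hN0⟩ : ∃ n : ℕ, n = 2006 := ⟨_, rfl⟩
  have hl2 := log_two_pos
  have hde := de_pos
  set M : ℝ := Real.log (bb N0) with hM
  have hM0 : 0 < M := by
    apply Real.log_pos
    have h := two_le_bb N0
    exact_mod_cast (show 1 < bb N0 by omega)
  set B : ℝ := (2^7 * Real.log 2) ^ de with hB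
  have hB0 : 0 < B := Real.rpow_pos_of_pos (by positivity) _
  have hMde : 0 < M ^ de := Real.rpow_pos_of_pos hM0 _
  refine ⟨2 * M ^ de + C * B, by positivity, ?_⟩
  intro X hX
  have hX2 : (2:ℝ) ≤ X := by exact_mod_cast hX
  have hlogX : 0 < Real.log X := Real.log_pos (by linarith)
  have hlde : 0 < Real.log X ^ de := Real.rpow_pos_of_pos hlogX _
  rcases lt_or_ge X (bb N0) with hs | hs
  · have h1 := hf X
    have h2 : Real.log X ≤ M := Real.log_le_log (by linarith) (by exact_mod_cast hs.le)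
    have h3 : Real.log X ^ de ≤ M ^ de := Real.rpow_le_rpow hlogX.le h2 hde.le
    have h4 : (2:ℝ) * X ≤ (2 * M ^ de + C * B) * X / Real.log X ^ de := by
      rw [le_div_iff₀ hlde]
      have h5 : (2:ℝ) * X * Real.log X ^ de ≤ 2 * X * M ^ de :=
        mul_le_mul_of_nonneg_left h3 (by positivity)
      have h6 : 0 ≤ C * B * X := by positivity
      nlinarith
    linarith
  · obtain ⟨K, hK, h1, h2⟩ := exists_window X N0 hN0 hs
    have h3 := h K X hK h1 h2
    have h4 := log_window hX h2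
    have h5 : Real.log X ^ de ≤ B * Real.exp (dl * K) := by
      calc Real.log X ^ de ≤ (2^7 * Real.log 2 * 2^K) ^ de :=
            Real.rpow_le_rpow hlogX.le h4 hde.le
        _ = B * Real.exp (dl * K) := by
          rw [Real.mul_rpow (by positivity) (by positivity), hB]
          congr 1
          rw [← de_mul, Real.rpow_def_of_pos (by positivity), Real.log_pow]
          congr 1
          ring
    have h6 : X * Real.exp (-dl * K) ≤ B * (X / Real.log X ^ de) := by
      have e1 : Real.exp (-dl * K) = (Real.exp (dl * K))⁻¹ := by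
        rw [← Real.exp_neg]; congr 1; ring
      have e2 : (X:ℝ) / Real.log X ^ de ≥ X / (B * Real.exp (dl * K)) :=
        div_le_div_of_nonneg_left (by positivity) hlde h5
      rw [e1]
      have e3 : X / (B * Real.exp (dl * K)) * B = X * (Real.exp (dl * K))⁻¹ := by
        have := (Real.exp_pos (dl * K)).ne'
        field_simp
      have e4 := mul_le_mul_of_nonneg_right e2 hB0.le
      rw [e3] at e4
      linarith
    have e1 := mul_le_mul_of_nonneg_left h6 hC.le
    have e2 : 0 ≤ (X:ℝ) / Real.log X ^ de := by positivity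
    have e3 : (2 * M ^ de + C * B) * X / Real.log X ^ de =
        2 * M ^ de * (X / Real.log X ^ de) + C * (B * (X / Real.log X ^ de)) := by
      ring
    have e4 : 0 ≤ 2 * M ^ de * (X / Real.log X ^ de) := by positivity
    rw [e3]
    linarith

lemma evenPow_le (X : ℕ) : ((evenPowOrders X).ncard : ℝ) ≤ X + 1 := by
  have hsub : evenPowOrders X ⊆ ((range (X+1) : Finset ℕ) : Set ℕ) := by
    intro v hv
    rw [mem_coe, mem_range]
    have : v ≤ X := hv.1
    omega
  have := Set.ncard_le_ncard hsub (Finset.finite_toSet _)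
  rw [Set.ncard_coe_finset, card_range] at this
  exact_mod_cast this

theorem evenPow_rate : ∃ C : ℝ, 0 < C ∧ ∀ X : ℕ, 2 ≤ X →
    ((evenPowOrders X).ncard : ℝ) ≤ C * X / Real.log X ^ de :=
  rate_of _ evenPow_le evenPow_window

end Pool.Agent.H73.RT
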